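import Pool.Agent.KT3.StmtsA
import Pool.Agent.Helper13_NBT.IBF

/-!
# Squad KT3, row LFC (helper34): leaf points are limits of leaf points
-/

set_option autoImplicit false

open Matrix Filter Topology

namespace Pool.Agent.KT3.H34

open Pool.Agent.PFS Pool.Agent.PFJ Pool.Agent.NBT

theorem i01_compl : (I01)ᶜ = ({2} : Finset (Fin 3)) := by decide

theorem mem_of_dom {n : ℕ} {C : Set (V n)} (hP : PCone C) {a p : V n} (hp : p ∈ C) {M : ℝ}
    (hM : 0 < M) (h : M • a - p ∈ closure C) : a ∈ C := by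
  have h1 : M • a ∈ C := by
    have e : M • a = p + (M • a - p) := by abel
    rw [e]
    exact hP.add_cl hp h
  have h3 := hP.smul _ h1 M⁻¹ (inv_pos.2 hM)
  rwa [smul_smul, inv_mul_cancel₀ hM.ne', one_smul] at h3

/-- `y + η w 1 + w 2` is interior -/
theorem int_eta {n : ℕ} {C : Set (V n)} (hP : PCone C) {Γ : Subgroup (GL (Fin n) ℝ)} {d : ℕ}
    {w : Fin 3 → V n} (hw : WI C Γ I01 d w) {y : V n} (hy : y ∈ closure C)
    (hu : Unt C (BI C w I01) (y + w 1)) {η : ℝ} (hη : 0 < η) : y + η • w 1 + w 2 ∈ C := by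
  have hfC : ∑ i, w i ∈ C := hw.pes.1.sum_mem
  have hw1 : w 1 ∈ closure C := hw.pes.1.cl 1
  have hw2 : w 2 ∈ closure C := hw.pes.1.cl 2
  obtain ⟨hUf, _, _, _⟩ := (Pool.Agent.NBT.H13.ibf n C hP 3 w hw.pes.1).1 I01 (BI C w I01) hw.box
  obtain ⟨M, hM, h1⟩ := hu.2.2 (fS w I01) hUf.1
  have hcomp : fS w I01 + w 2 = ∑ i, w i := by
    rw [← fS_add_compl w I01, i01_compl, fS_single]
  set N := max (max M (M / η)) 1 with hN
  have hN1 : M ≤ N := le_trans (le_max_left _ _) (le_max_left _ _)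
  have hN2 : M / η ≤ N := le_trans (le_max_right _ _) (le_max_left _ _)
  have hN3 : 1 ≤ N := le_max_right _ _
  have hN4 : M ≤ N * η := by rwa [div_le_iff₀ hη] at hN2
  refine mem_of_dom hP hfC (lt_of_lt_of_le one_pos hN3) ?_
  have e : N • (y + η • w 1 + w 2) - ∑ i, w i = (M • (y + w 1) - fS w I01) +
      ((N - M) • y + ((N * η - M) • w 1 + (N - 1) • w 2)) := by
    rw [← hcomp]
    module
  rw [e]
  exact hP.cl_add h1 (hP.cl_add (hP.cl_smul hy (sub_nonneg.2 hN1))
    (hP.cl_add (hP.cl_smul hw1 (sub_nonneg.2 hN4)) (hP.cl_smul hw2 (sub_nonneg.2 hN3))))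

/-- if `v + w 2` is interior, then `v` is a unit of the wall -/
theorem unt_of_int {n : ℕ} {C : Set (V n)} (hP : PCone C) {Γ : Subgroup (GL (Fin n) ℝ)} {d : ℕ}
    {w : Fin 3 → V n} (hw : WI C Γ I01 d w) {v : V n} (hv : v ∈ BI C w I01)
    (h : v + w 2 ∈ C) : Unt C (BI C w I01) v := by
  obtain ⟨_, _, h4, _⟩ := (Pool.Agent.NBT.H13.ibf n C hP 3 w hw.pes.1).1 I01 (BI C w I01) hw.box
  refine ⟨hv, ?_, fun s hs => ?_⟩
  · refine (h4 v hv (fun _ => 1) ?_).1
    rw [i01_compl, Finset.sum_singleton, one_smul]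
    exact subset_closure h
  · obtain ⟨M, hM, h2⟩ := hP.absorb h s
    refine ⟨M, hM, ?_⟩
    refine (h4 (M • v - s) (Submodule.sub_mem _ (Submodule.smul_mem _ _ hv) hs) (fun _ => M) ?_).1
    rw [i01_compl, Finset.sum_singleton]
    have e : M • v - s + M • w 2 = M • (v + w 2) - s := by module
    rw [e]
    exact subset_closure h2

theorem lfc (wic : WicStmt) (lft : LftStmt) (lfm : LfmStmt) (_ : StxStmt) (phe : PheStmt)
    (phc : PhcStmt) : LfcStmt := by
  intro n C Γ d hH x w hx hw hxw y hy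
  have hP : PCone C := hH.toHI.toHK.toCC.toPCone
  have hfC : ∑ i, w i ∈ C := hw.pes.1.sum_mem
  obtain ⟨_, hlim⟩ := wic n C Γ 3 I01 d hH.toHI x w hx hxw hfC
  obtain ⟨u, hu, hut⟩ := hlim.1 y hy.mem
  obtain ⟨φ, hφ⟩ := phe n C Γ 3 hH.toHI.toHK w hw.pes 0
  have hφm : ∀ m, ∃ ψ : V n →ₗ[ℝ] ℝ, Ph C (x m) 0 ψ := fun m =>
    phe n C Γ 3 hH.toHI.toHK (x m) (hx m).pes 0
  choose φm hφm using hφm
  obtain ⟨_, _, _, hext, _, hunit, hpos⟩ := (lfm n C Γ d hH w hw).2 y hy
  have hφy : 0 < φ y := (hpos φ hφ).1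
  have hlimφ : Tendsto (fun m => φm m (u m)) atTop (𝓝 (φ y)) :=
    phc n C Γ 3 hH.toHI.toHK x w (fun m => (hx m).pes) hw.pes hxw 0 φm φ u y hφm hφ hut
  have hev : ∀ᶠ m in atTop, 0 < φm m (u m) := hlimφ.eventually (lt_mem_nhds hφy)
  have hex : ∀ m, ∃ t : ℝ, 0 < φm m (u m) → Lf C (x m) (u m + t • x m 1) := by
    intro m
    by_cases h : 0 < φm m (u m)
    · obtain ⟨t, ht, _⟩ := lft n C Γ d hH (x m) (hx m) (φm m) (hφm m) (u m) (hu m) h
      exact ⟨t, fun _ => ht⟩
    · exact ⟨0, fun h' => absurd h' h⟩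
  choose t ht using hex
  have hw1 : w 1 ≠ 0 := by
    obtain ⟨ψ, hψ⟩ := phe n C Γ 3 hH.toHI.toHK w hw.pes 1
    intro h0
    have h1 := hψ.one
    rw [h0, map_zero] at h1
    exact one_ne_zero h1.symm
  have ht0 : Tendsto t atTop (𝓝 0) := by
    rw [Metric.tendsto_nhds]
    intro ε hε
    set η := ε / 2 with hη
    have hη0 : 0 < η := by positivity
    have h1 : ∀ᶠ m in atTop, (u m + η • x m 1) + x m 2 ∈ C := by
      have h2 : Tendsto (fun m => (u m + η • x m 1) + x m 2) atTop (𝓝 ((y + η • w 1) + w 2)) :=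
        (hut.add ((hxw 1).const_smul η)).add (hxw 2)
      exact h2.eventually (hP.isOpen.mem_nhds (int_eta hP hw hy.cl hunit hη0))
    have h3 : ∀ᶠ m in atTop, u m - η • x m 1 ∉ closure C := by
      have h4 : Tendsto (fun m => u m - η • x m 1) atTop (𝓝 (y - η • w 1)) :=
        hut.sub ((hxw 1).const_smul η)
      have h5 : y - η • w 1 ∈ (closure C)ᶜ := by
        intro h6
        obtain ⟨c, hc⟩ := hext (η • w 1) (hP.cl_smul (hw.pes.1.cl 1) hη0.le) 1
          (by rwa [one_smul])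
        by_cases hc0 : c = 0
        · rw [hc0, zero_smul] at hc
          rcases smul_eq_zero.1 hc with h7 | h7
          · exact hη0.ne' h7
          · exact hw1 h7
        · refine hy.ne (c⁻¹ * η) ?_
          rw [← smul_smul, hc, smul_smul, inv_mul_cancel₀ hc0, one_smul]
      exact h4.eventually (isClosed_closure.isOpen_compl.mem_nhds h5)
    filter_upwards [hev, h1, h3] with m hm0 hm1 hm3
    have hL := ht m hm0
    have hx1 : x m 1 ∈ closure C := (hx m).pes.1.cl 1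
    have hxB : x m 1 ∈ BI C (x m) I01 := (hx m).box.mem 1 (by decide)
    have hle : t m ≤ η := by
      by_contra hn
      push Not at hn
      have hU := unt_of_int hP (hx m) (Submodule.add_mem _ (hu m) (Submodule.smul_mem _ η hxB)) hm1
      refine hL.non ⟨hL.mem, hL.cl, fun s hs => ?_⟩
      obtain ⟨M, hM, h2⟩ := hU.2.2 s hs
      refine ⟨M, hM, ?_⟩
      have e : M • (u m + t m • x m 1) - s = (M • (u m + η • x m 1) - s) +
          (M * (t m - η)) • x m 1 := by module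
      rw [e]
      exact hP.cl_add h2 (hP.cl_smul hx1 (mul_nonneg hM.le (sub_nonneg.2 hn.le)))
    have hge : -η < t m := by
      by_contra hn
      push Not at hn
      refine hm3 ?_
      have e : u m - η • x m 1 = (u m + t m • x m 1) + (-η - t m) • x m 1 := by module
      rw [e]
      exact hP.cl_add hL.cl (hP.cl_smul hx1 (by linarith))
    rw [Real.dist_eq, sub_zero, abs_lt]
    constructor <;> linarith
  refine ⟨fun m => u m + t m • x m 1, ?_, ?_⟩
  · have h := hut.add (ht0.smul (hxw 1))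
    rwa [zero_smul, add_zero] at h
  · filter_upwards [hev] with m hm
    exact ht m hm

end Pool.Agent.KT3.H34
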